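import Mathlib

/-!
# A player who gains from a deviation towards AvA in a self-interest cumulative subtraction game

For `S = {4, 7, 18, 34}` and heap size `85` the second player's outcome in the setting AvA is `42`,
while it is `41` in the setting AvF.
-/

set_option autoImplicit false

namespace Pool.Agent.Results.MP_0d6f46_co.AvAGain

/-- The tie-breaking conventions: friendly and antagonistic. -/
inductive Letter
  | F
  | A
  deriving DecidableEq

/-- The outcome `(o¹_X(h), o²_X(h))` of the heap `h` in the self-interest cumulative subtraction game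
on `S`, in the setting `X` whose letter for the player who moves first is `a` and whose letter for the
other player is `b`. The dual setting has the letters `b`, `a`. If no move is possible, both scores
are `0` (the supremum and the infimum of the empty set of natural numbers are `0`). Otherwise the
first score `top` is the maximum over the moves `s` of `s` plus the second score of the heap `h - s` in
the dual setting, and the second score is the minimum (if `a = A`) or maximum (if `a = F`) of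
the first scores of the heaps `h - s` in the dual setting over the moves `s` attaining `top`. -/
noncomputable def outcome (S : Finset ℕ) (a b : Letter) (h : ℕ) : ℕ × ℕ :=
  let next : (s : ℕ) → (0 < s ∧ s ≤ h) → ℕ × ℕ := fun s _ => outcome S b a (h - s)
  let top : ℕ := sSup {v : ℕ | ∃ s, ∃ hs : 0 < s ∧ s ≤ h, s ∈ S ∧ v = s + (next s hs).2}
  let replies : Set ℕ :=
    {w : ℕ | ∃ s, ∃ hs : 0 < s ∧ s ≤ h, s ∈ S ∧ s + (next s hs).2 = top ∧ w = (next s hs).1}
  (top, if a = Letter.A then sInf replies else sSup replies)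
termination_by h
decreasing_by omega

/-- Outcomes in the setting FvF for `S = {4, 7, 18, 34}` and heaps `0, ..., 85`. -/
def tabFF : List (ℕ × ℕ) :=
[(0, 0), (0, 0), (0, 0), (0, 0), (4, 0), (4, 0), (4, 0), (7, 0), (7, 0), (7, 0), (7, 0), (7, 4),
  (7, 4), (7, 4), (7, 7), (8, 7), (8, 7), (8, 7), (18, 0), (18, 0), (18, 0), (18, 0), (18, 4),
  (18, 4), (18, 4), (18, 7), (18, 7), (18, 7), (18, 7), (22, 7), (22, 7), (22, 7), (25, 7), (25,
  8), (34, 0), (34, 0), (34, 0), (34, 0), (34, 4), (34, 4), (34, 4), (34, 7), (34, 7), (34, 7),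
  (34, 7), (38, 7), (38, 7), (38, 7), (41, 7), (41, 8), (41, 8), (41, 8), (34, 18), (34, 18),
  (34, 18), (34, 18), (38, 18), (38, 18), (38, 18), (41, 18), (41, 18), (41, 18), (41, 18), (41,
  22), (41, 22), (41, 22), (41, 25), (42, 25), (34, 34), (34, 34), (36, 34), (36, 34), (38, 34),
  (38, 34), (38, 36), (41, 34), (41, 34), (41, 36), (41, 36), (41, 38), (41, 38), (43, 38), (41,
  41), (42, 41), (43, 41), (43, 42)]

/-- Outcomes in the setting FvA for `S = {4, 7, 18, 34}` and heaps `0, ..., 85`. -/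
def tabFA : List (ℕ × ℕ) :=
[(0, 0), (0, 0), (0, 0), (0, 0), (4, 0), (4, 0), (4, 0), (7, 0), (7, 0), (7, 0), (7, 0), (7, 4),
  (7, 4), (7, 4), (7, 7), (8, 7), (8, 7), (8, 7), (18, 0), (18, 0), (18, 0), (18, 0), (18, 4),
  (18, 4), (18, 4), (18, 7), (18, 7), (18, 7), (18, 7), (22, 7), (22, 7), (22, 7), (25, 7), (25,
  8), (34, 0), (34, 0), (34, 0), (34, 0), (34, 4), (34, 4), (34, 4), (34, 7), (34, 7), (34, 7),
  (34, 7), (38, 7), (38, 7), (38, 7), (41, 7), (41, 8), (41, 8), (41, 8), (34, 18), (34, 18),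
  (34, 18), (34, 18), (38, 18), (38, 18), (38, 18), (41, 18), (41, 18), (41, 18), (41, 18), (41,
  22), (41, 22), (41, 22), (41, 25), (42, 25), (34, 34), (34, 34), (36, 34), (36, 34), (38, 34),
  (38, 34), (38, 36), (41, 34), (41, 34), (41, 36), (41, 36), (41, 38), (41, 38), (41, 38), (41,
  41), (42, 41), (43, 41), (43, 42)]

/-- Outcomes in the setting AvF for `S = {4, 7, 18, 34}` and heaps `0, ..., 85`. -/
def tabAF : List (ℕ × ℕ) :=
[(0, 0), (0, 0), (0, 0), (0, 0), (4, 0), (4, 0), (4, 0), (7, 0), (7, 0), (7, 0), (7, 0), (7, 4),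
  (7, 4), (7, 4), (7, 7), (8, 7), (8, 7), (8, 7), (18, 0), (18, 0), (18, 0), (18, 0), (18, 4),
  (18, 4), (18, 4), (18, 7), (18, 7), (18, 7), (18, 7), (22, 7), (22, 7), (22, 7), (25, 7), (25,
  8), (34, 0), (34, 0), (34, 0), (34, 0), (34, 4), (34, 4), (34, 4), (34, 7), (34, 7), (34, 7),
  (34, 7), (38, 7), (38, 7), (38, 7), (41, 7), (41, 8), (41, 8), (41, 8), (34, 18), (34, 18),
  (34, 18), (34, 18), (38, 18), (38, 18), (38, 18), (41, 18), (41, 18), (41, 18), (41, 18), (41,
  22), (41, 22), (41, 22), (41, 25), (42, 25), (34, 34), (34, 34), (36, 34), (36, 34), (38, 34),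
  (38, 34), (38, 34), (41, 34), (41, 34), (41, 34), (41, 34), (41, 38), (41, 38), (43, 38), (41,
  41), (42, 41), (43, 41), (43, 41)]

/-- Outcomes in the setting AvA for `S = {4, 7, 18, 34}` and heaps `0, ..., 85`. -/
def tabAA : List (ℕ × ℕ) :=
[(0, 0), (0, 0), (0, 0), (0, 0), (4, 0), (4, 0), (4, 0), (7, 0), (7, 0), (7, 0), (7, 0), (7, 4),
  (7, 4), (7, 4), (7, 7), (8, 7), (8, 7), (8, 7), (18, 0), (18, 0), (18, 0), (18, 0), (18, 4),
  (18, 4), (18, 4), (18, 7), (18, 7), (18, 7), (18, 7), (22, 7), (22, 7), (22, 7), (25, 7), (25,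
  8), (34, 0), (34, 0), (34, 0), (34, 0), (34, 4), (34, 4), (34, 4), (34, 7), (34, 7), (34, 7),
  (34, 7), (38, 7), (38, 7), (38, 7), (41, 7), (41, 8), (41, 8), (41, 8), (34, 18), (34, 18),
  (34, 18), (34, 18), (38, 18), (38, 18), (38, 18), (41, 18), (41, 18), (41, 18), (41, 18), (41,
  22), (41, 22), (41, 22), (41, 25), (42, 25), (34, 34), (34, 34), (36, 34), (36, 34), (38, 34),
  (38, 34), (38, 34), (41, 34), (41, 34), (41, 34), (41, 34), (41, 38), (41, 38), (41, 38), (41,
  41), (42, 41), (43, 41), (43, 42)]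

/-- The candidate outcome function. -/
def t (a b : Letter) (h : ℕ) : ℕ × ℕ :=
  match a, b with
  | Letter.F, Letter.F => tabFF.getD h (0, 0)
  | Letter.F, Letter.A => tabFA.getD h (0, 0)
  | Letter.A, Letter.F => tabAF.getD h (0, 0)
  | Letter.A, Letter.A => tabAA.getD h (0, 0)

/-- Any tested move gives at most the first score. -/
def Ok1 (t : Letter → Letter → ℕ → ℕ × ℕ) (a b : Letter) (h s : ℕ) : Prop :=
  0 < s → s ≤ h → s + (t b a (h - s)).2 ≤ (t a b h).1

/-- The move `s` attains the two scores. -/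
def Ok2 (t : Letter → Letter → ℕ → ℕ × ℕ) (a b : Letter) (h s : ℕ) : Prop :=
  0 < s ∧ s ≤ h ∧ s + (t b a (h - s)).2 = (t a b h).1 ∧ (t b a (h - s)).1 = (t a b h).2

/-- A best move `s` does not give a preferable second score. -/
def Ok3 (t : Letter → Letter → ℕ → ℕ × ℕ) (a b : Letter) (h s : ℕ) : Prop :=
  0 < s → s ≤ h → s + (t b a (h - s)).2 = (t a b h).1 →
      (a = Letter.A → (t a b h).2 ≤ (t b a (h - s)).1) ∧
      (a = Letter.F → (t b a (h - s)).1 ≤ (t a b h).2)

instance (t : Letter → Letter → ℕ → ℕ × ℕ) (a b : Letter) (h s : ℕ) :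
    Decidable (Ok1 t a b h s) := by unfold Ok1; infer_instance

instance (t : Letter → Letter → ℕ → ℕ × ℕ) (a b : Letter) (h s : ℕ) :
    Decidable (Ok2 t a b h s) := by unfold Ok2; infer_instance

instance (t : Letter → Letter → ℕ → ℕ × ℕ) (a b : Letter) (h s : ℕ) :
    Decidable (Ok3 t a b h s) := by unfold Ok3; infer_instance

/-- The outcome recursion for a candidate function at one heap. -/
def Ok (S : Finset ℕ) (t : Letter → Letter → ℕ → ℕ × ℕ) (a b : Letter) (h : ℕ) : Prop :=
  ((∀ s ∈ S, 0 < s → ¬ s ≤ h) ∧ t a b h = (0, 0)) ∨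
  ((∀ s ∈ S, Ok1 t a b h s) ∧ (∃ s ∈ S, Ok2 t a b h s) ∧ (∀ s ∈ S, Ok3 t a b h s))

instance (S : Finset ℕ) (t : Letter → Letter → ℕ → ℕ × ℕ) (a b : Letter) (h : ℕ) :
    Decidable (Ok S t a b h) := by unfold Ok; infer_instance

theorem outcome_eq (S : Finset ℕ) (t : Letter → Letter → ℕ → ℕ × ℕ) (N : ℕ)
    (hok : ∀ h < N, ∀ a b, Ok S t a b h) :
    ∀ h < N, ∀ a b, outcome S a b h = t a b h := by
  intro h
  induction h using Nat.strong_induction_on with
  | _ h ih =>
    intro hN a b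
    have hnext : ∀ s, (0 < s ∧ s ≤ h) → outcome S b a (h - s) = t b a (h - s) := by
      intro s hs
      exact ih (h - s) (by omega) (by omega) b a
    have e1 : {v : ℕ | ∃ s, ∃ _ : 0 < s ∧ s ≤ h, s ∈ S ∧ v = s + (outcome S b a (h - s)).2} =
        {v : ℕ | ∃ s ∈ S, 0 < s ∧ s ≤ h ∧ v = s + (t b a (h - s)).2} := by
      ext v
      constructor
      · rintro ⟨s, hs, hS, rfl⟩
        exact ⟨s, hS, hs.1, hs.2, by rw [hnext s hs]⟩
      · rintro ⟨s, hS, h0, hle, rfl⟩
        exact ⟨s, ⟨h0, hle⟩, hS, by rw [hnext s ⟨h0, hle⟩]⟩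
    have e2 : ∀ c : ℕ, {w : ℕ | ∃ s, ∃ _ : 0 < s ∧ s ≤ h, s ∈ S ∧
          s + (outcome S b a (h - s)).2 = c ∧ w = (outcome S b a (h - s)).1} =
        {w : ℕ | ∃ s ∈ S, 0 < s ∧ s ≤ h ∧ s + (t b a (h - s)).2 = c ∧
          w = (t b a (h - s)).1} := by
      intro c
      ext w
      constructor
      · rintro ⟨s, hs, hS, h1, rfl⟩
        rw [hnext s hs] at h1
        exact ⟨s, hS, hs.1, hs.2, h1, by rw [hnext s hs]⟩
      · rintro ⟨s, hS, h0, hle, h1, rfl⟩
        refine ⟨s, ⟨h0, hle⟩, hS, ?_, by rw [hnext s ⟨h0, hle⟩]⟩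
        rw [hnext s ⟨h0, hle⟩]
        exact h1
    rw [outcome]
    simp only [e1, e2]
    rcases hok h hN a b with ⟨hno, hz⟩ | ⟨hub, ⟨s₀, hs₀, h00, h0le, htop, hrep⟩, hext⟩
    · have f1 : {v : ℕ | ∃ s ∈ S, 0 < s ∧ s ≤ h ∧ v = s + (t b a (h - s)).2} = ∅ := by
        ext v
        simp only [Set.mem_ofPred_eq, Set.mem_empty_iff_false, iff_false]
        rintro ⟨s, hs, h0, hle, -⟩
        exact hno s hs h0 hle
      have f2 : ∀ c : ℕ, {w : ℕ | ∃ s ∈ S, 0 < s ∧ s ≤ h ∧ s + (t b a (h - s)).2 = c ∧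
          w = (t b a (h - s)).1} = ∅ := by
        intro c
        ext v
        simp only [Set.mem_ofPred_eq, Set.mem_empty_iff_false, iff_false]
        rintro ⟨s, hs, h0, hle, -⟩
        exact hno s hs h0 hle
      simp only [f1, f2, hz]
      simp
    · have f1 : sSup {v : ℕ | ∃ s ∈ S, 0 < s ∧ s ≤ h ∧ v = s + (t b a (h - s)).2} =
          (t a b h).1 := by
        apply IsGreatest.csSup_eq
        refine ⟨⟨s₀, hs₀, h00, h0le, htop.symm⟩, ?_⟩
        rintro v ⟨s, hs, h0, hle, rfl⟩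
        exact hub s hs h0 hle
      rw [f1]
      refine Prod.ext rfl ?_
      simp only
      have hmem : (t a b h).2 ∈ {w : ℕ | ∃ s ∈ S, 0 < s ∧ s ≤ h ∧
          s + (t b a (h - s)).2 = (t a b h).1 ∧ w = (t b a (h - s)).1} :=
        ⟨s₀, hs₀, h00, h0le, htop, hrep.symm⟩
      by_cases ha : a = Letter.A
      · rw [if_pos ha]
        apply IsLeast.csInf_eq
        refine ⟨hmem, ?_⟩
        rintro w ⟨s, hs, h0, hle, h1, rfl⟩
        exact (hext s hs h0 hle h1).1 ha
      · rw [if_neg ha]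
        have hF : a = Letter.F := by cases a with
          | F => rfl
          | A => exact absurd rfl ha
        apply IsGreatest.csSup_eq
        refine ⟨hmem, ?_⟩
        rintro w ⟨s, hs, h0, hle, h1, rfl⟩
        exact (hext s hs h0 hle h1).2 hF

theorem ok_t : ∀ h < 86, ∀ a b, Ok {4, 7, 18, 34} t a b h := by
  have h1 : ∀ h < 86, Ok {4, 7, 18, 34} t Letter.F Letter.F h := by decide +kernel
  have h2 : ∀ h < 86, Ok {4, 7, 18, 34} t Letter.F Letter.A h := by decide +kernel
  have h3 : ∀ h < 86, Ok {4, 7, 18, 34} t Letter.A Letter.F h := by decide +kernel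
  have h4 : ∀ h < 86, Ok {4, 7, 18, 34} t Letter.A Letter.A h := by decide +kernel
  intro h hh a b
  cases a <;> cases b
  · exact h1 h hh
  · exact h2 h hh
  · exact h3 h hh
  · exact h4 h hh

/-- There are a finite nonempty set `S` of positive integers and a heap size `h` for which the second
player's score in the setting AvA is strictly larger than in the setting AvF. -/
theorem result : ∃ (S : Finset ℕ) (h : ℕ), S.Nonempty ∧ (∀ s ∈ S, 0 < s) ∧
    (outcome S Letter.A Letter.F h).2 < (outcome S Letter.A Letter.A h).2 := by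
  refine ⟨{4, 7, 18, 34}, 85, by decide, by decide, ?_⟩
  rw [outcome_eq _ t 86 ok_t 85 (by norm_num), outcome_eq _ t 86 ok_t 85 (by norm_num)]
  decide +kernel

end Pool.Agent.Results.MP_0d6f46_co.AvAGain
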